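import Pool.Agent.Run7.h430.OD.E
import Pool.Agent.Run7.h430.OD.F
import Pool.Agent.Run7.h527.AD.Dens

/-!
# The values of the arithmetic derivative are differences of two primes

Let `m′` be the arithmetic derivative of `m`: `p′ = 1` for all primes `p`, and `(m n)′ = m n′ + n m′`. For almost all `m` with an
even derivative and with a prime factor larger than `m^(3/10 + ρ)` the derivative `n = m′` is a difference of two primes, and
every window of a length of at least `n / (log n)^K` below `n (log n)^K` contains at least `1 / 21` of the number of primes `p`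
with `p + n` prime which Hardy and Littlewood predict. At least 70 per cent of the multiples of four (for which `m′` is always
even) have this property. If the prime factor is larger than `m^(1/3 + ρ)`, the formula of Hardy and Littlewood holds, for all
scales `x` between `n (log n)^(C + 8)` and `n (log n)^K`, for the primes `p` in ALL residue classes of ALL moduli
`q ≤ (log x)^K`, and with an error of at most `x / (log x)^C`. The same is true for all linear combinations
`n = α m + β D(m)`, `β ≠ 0`, where `D` is any function of moderate growth with Leibniz' rule `D(m n) = m D(n) + n D(m)` for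
coprime `m`, `n`, and `D(p) = u p + v`, `v ≠ 0`, for all large primes `p`, as long as `n` is positive and not very small. These
functions are neither additive nor multiplicative, nothing is known on the distribution of their values in residue classes to
large moduli, and their values are taken with large multiplicities.

The result `AliquotDifferences` on this problem treats the combinations `α m + β f(m)` with multiplicative functions `f`; a
derivation is not of this form.

Proof. Write `m = k p` with the large prime factor `p`. Then `n = A p + B` with `A = (α + β u) k + β D(k)` and `B = β v k`. The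
theorems on prime pairs with the differences in the residue classes of every modulus (`R460/GQ`, `R460/GP`, starting files,
made uniform in the scale in `Run7/h430/OD`) are applied to the class of `B` modulo `A`, for every `k` (`N733/AQ`, starting
files). The greatest common divisor of `A` and `B` divides `β² v gcd(k, D(k))`, and this is bounded for all `k` without large
square divisors, since a prime `ℓ` which divides `k` exactly once divides `D(k)` only if it divides `D(ℓ)`.
-/

set_option autoImplicit false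

namespace Pool.Agent.Results.MP_70e905_nt.DerivativeDifferences

open Finset Filter Topology
open Pool.Agent.H560R3.GB (C₂ sing)

/-- `D` satisfies Leibniz' rule for coprime arguments, `|D m| ≤ m (1 + log m)^C`, and `D p = u p + v` for all large primes
`p`. -/
structure Derivation (D : ℕ → ℤ) (u v : ℤ) : Prop where
  leib : ∀ m n : ℕ, Nat.Coprime m n → D (m * n) = m * D n + n * D m
  growth : ∃ C : ℕ, ∀ m : ℕ, 1 ≤ m → |(D m : ℝ)| ≤ m * (1 + Real.log m) ^ C
  prime : ∃ P : ℕ, ∀ p : ℕ, P ≤ p → p.Prime → D p = u * p + v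

/-- The arithmetic derivative `m′ = ∑ a m / p`, over the prime powers `p^a` which divide `m` exactly. -/
def deriv (m : ℕ) : ℕ := ∑ p ∈ m.primeFactors, m.factorization p * (m / p)

/-- `m` has a prime factor `p ≥ m ^ τ`. -/
def LargePrime (τ : ℝ) (m : ℕ) : Prop := ∃ p : ℕ, p.Prime ∧ p ∣ m ∧ (m : ℝ) ^ τ ≤ p

open Classical in
/-- The proportion of the positive integers `m ≤ N` without the property `P` tends to `0`. -/
def AlmostAll (P : ℕ → Prop) : Prop :=
  Tendsto (fun N : ℕ => (((Icc 1 N).filter (fun m => ¬ P m)).card : ℝ) / N) atTop (𝓝 0)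

/-- The number `n` is the difference of two primes. -/
def Difference (n : ℕ) : Prop := ∃ p q : ℕ, p.Prime ∧ q.Prime ∧ q = p + n

open Classical in
/-- The number of the primes `p ≤ y`, `p ≡ a (mod q)`, for which `p + d` is a prime and `p + d ≤ y`. -/
noncomputable def pairs (d : ℕ) (y : ℝ) (a q : ℕ) : ℕ :=
  ((range (⌊y⌋₊ + 1)).filter (fun p => p.Prime ∧ (p + d).Prime ∧ (p : ℝ) + d ≤ y ∧ p ≡ a [MOD q])).card

/-- The number predicted by Hardy and Littlewood: `2 C₂ ∏_{p ∣ d, p > 2} (p - 1) / (p - 2) ∫_2^y dt / (log t)^2`, divided by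
the number of the classes `α` modulo `q` with `(α, q) = (α + d, q) = 1`. -/
noncomputable def prediction (d : ℕ) (y : ℝ) (q : ℕ) : ℝ :=
  2 / (((range q).filter (fun α => Nat.Coprime α q ∧ Nat.Coprime (α + d) q)).card : ℝ) *
    (∏ p ∈ d.primeFactors.filter (fun p => 2 < p), ((p : ℝ) - 1) / ((p : ℝ) - 2)) *
    C₂ * ∫ t in (2 : ℝ)..y, 1 / Real.log t ^ 2

/-- For all `C ≤ K` and ALL real `x` with `d (log d)^(C + 8) ≤ x ≤ d (log d)^K`: the formula holds with an error of at most
`x / (log x)^C` for ALL `1 ≤ q ≤ (log x)^K`, ALL `a` with `(a, q) = (a + d, q) = 1` and ALL real `2 ≤ y ≤ x`. -/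
def Formula (K d : ℕ) : Prop :=
  ∀ C : ℕ, C ≤ K → ∀ x : ℝ, (d : ℝ) * Real.log d ^ (C + 8) ≤ x → x ≤ d * Real.log d ^ K →
    ∀ q a : ℕ, 1 ≤ q → (q : ℝ) ≤ Real.log x ^ K → Nat.Coprime a q → Nat.Coprime (a + d) q →
      ∀ y : ℝ, 2 ≤ y → y ≤ x → |(pairs d y a q : ℝ) - prediction d y q| ≤ x / Real.log x ^ C

/-- The number of the primes `p` with `u < p ≤ v` such that `p + n` is a prime. -/
noncomputable def window (n : ℕ) (u v : ℝ) : ℕ :=
  Set.ncard {p : ℕ | p.Prime ∧ (p + n).Prime ∧ u < (p : ℝ) ∧ (p : ℝ) ≤ v}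

/-- Every window `(u, v] ⊆ (0, n (log n)^K]` of a length of at least `n / (log n)^K` contains at least `1 / 21` of the
predicted number of primes `p` with `p + n` prime. Here `sing n = 2 C₂ ∏_{p ∣ n, p > 2} (p - 1) / (p - 2)`. -/
def Many (K n : ℕ) : Prop :=
  ∀ u v : ℝ, 0 ≤ u → v ≤ n * Real.log n ^ K → n / Real.log n ^ K ≤ v - u →
    1 / 21 * (sing n * (v - u) / Real.log n ^ 2) ≤ (window n u v : ℝ)

theorem der_of {D : ℕ → ℤ} {u v : ℤ} (hD : Derivation D u v) : Run7.h527.AD.Der D u v :=
  ⟨hD.leib, hD.growth, hD.prime⟩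

theorem diff_of {n : ℕ} (h : ∃ p : ℕ, p.Prime ∧ (p + n).Prime) : Difference n := by
  obtain ⟨p, hp, hq⟩ := h
  exact ⟨p, p + n, hp, hq, rfl⟩

theorem almostAll_and {P Q R : ℕ → Prop} (hP : AlmostAll P) (hQ : AlmostAll Q) (m₀ : ℕ)
    (h : ∀ m, m₀ ≤ m → P m → Q m → R m) : AlmostAll R :=
  Pool.Agent.Results.MP_967f73_nt.AliquotSums.almostAll_and hP hQ m₀ h

theorem asymptotic (D : ℕ → ℤ) (u v α β : ℤ) (C K : ℕ) (ρ : ℝ) (hD : Derivation D u v) (hv : v ≠ 0) (hβ : β ≠ 0)
    (hρ : 0 < ρ) :
    AlmostAll (fun m => LargePrime (1 / 3 + ρ) m → (m : ℝ) / Real.log m ^ C ≤ ((α * m + β * D m : ℤ) : ℝ) →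
      Even (α * m + β * D m) → Difference (α * m + β * D m).toNat ∧ Formula K (α * m + β * D m).toNat) := by
  have h := Run7.h527.AD.der_general (der_of hD) hv α β hβ (2 / 3) (by norm_num) (by norm_num)
    (fun n => Run7.h430.OD.DG K n) (Run7.h430.OD.ebt K) C ρ hρ
  rw [show (1 - 2 / 3 : ℝ) = 1 / 3 by norm_num] at h
  refine almostAll_and h h 0 ?_
  intro m _ h1 _ h2 h3 h4
  have h5 : Even (α * m + β * D m).toNat := by
    have e0 : 0 ≤ α * m + β * D m := by
      have e1 : (0 : ℝ) ≤ ((α * m + β * D m : ℤ) : ℝ) := by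
        refine le_trans ?_ h3
        have : 0 ≤ Real.log (m : ℝ) := Real.log_natCast_nonneg m
        positivity
      exact_mod_cast e1
    have e : (((α * m + β * D m).toNat : ℕ) : ℤ) = α * m + β * D m := Int.toNat_of_nonneg e0
    have e2 : Even (((α * m + β * D m).toNat : ℕ) : ℤ) := by
      rw [e]
      exact h4
    exact_mod_cast e2
  obtain ⟨h6, h7⟩ := h1 h2 h3 h4
  exact ⟨diff_of h6, fun C hC x hx1 hx2 q a hq hqx ha had y hy2 hyx =>
    h7 h5 h5 C hC x hx1 hx2 q a hq hqx ha had y hy2 hyx⟩

theorem lower (D : ℕ → ℤ) (u v α β : ℤ) (C K : ℕ) (ρ : ℝ) (hD : Derivation D u v) (hv : v ≠ 0) (hβ : β ≠ 0)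
    (hρ : 0 < ρ) :
    AlmostAll (fun m => LargePrime (3 / 10 + ρ) m → (m : ℝ) / Real.log m ^ C ≤ ((α * m + β * D m : ℤ) : ℝ) →
      Even (α * m + β * D m) → Difference (α * m + β * D m).toNat ∧ Many K (α * m + β * D m).toNat) := by
  have h := Run7.h527.AD.der_general (der_of hD) hv α β hβ (7 / 10) (by norm_num) (by norm_num)
    (fun n => Run7.h430.OD.DW K n) (Run7.h430.OD.ebt_low K) C ρ hρ
  rw [show (1 - 7 / 10 : ℝ) = 3 / 10 by norm_num] at h
  refine almostAll_and h h 0 ?_
  intro m _ h1 _ h2 h3 h4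
  obtain ⟨h6, h7⟩ := h1 h2 h3 h4
  exact ⟨diff_of h6, h7⟩

theorem derivation_deriv : Derivation (fun m => (deriv m : ℤ)) 0 1 :=
  ⟨Run7.h527.AD.der_deriv.leib, Run7.h527.AD.der_deriv.growth, Run7.h527.AD.der_deriv.prime⟩

theorem asymptotic_deriv (K : ℕ) (ρ : ℝ) (hρ : 0 < ρ) :
    AlmostAll (fun m => LargePrime (1 / 3 + ρ) m → Even (deriv m) → Difference (deriv m) ∧ Formula K (deriv m)) := by
  have h := asymptotic (fun m => (deriv m : ℤ)) 0 1 0 1 2 K ρ derivation_deriv (by norm_num) (by norm_num) hρ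
  refine almostAll_and h Run7.h527.AD.deriv_large 0 ?_
  intro m _ h1 h2 h3 h4
  have e : (0 * (m : ℤ) + 1 * (deriv m : ℤ)) = (deriv m : ℤ) := by ring
  have h5 := h1 h3
  rw [e, Int.toNat_natCast] at h5
  exact h5 (by exact_mod_cast h2) (by exact_mod_cast h4)

theorem lower_deriv (K : ℕ) (ρ : ℝ) (hρ : 0 < ρ) :
    AlmostAll (fun m => LargePrime (3 / 10 + ρ) m → Even (deriv m) → Difference (deriv m) ∧ Many K (deriv m)) := by
  have h := lower (fun m => (deriv m : ℤ)) 0 1 0 1 2 K ρ derivation_deriv (by norm_num) (by norm_num) hρ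
  refine almostAll_and h Run7.h527.AD.deriv_large 0 ?_
  intro m _ h1 h2 h3 h4
  have e : (0 * (m : ℤ) + 1 * (deriv m : ℤ)) = (deriv m : ℤ) := by ring
  have h5 := h1 h3
  rw [e, Int.toNat_natCast] at h5
  exact h5 (by exact_mod_cast h2) (by exact_mod_cast h4)

open Classical in
theorem density (K : ℕ) (δ : ℝ) (hδ : δ < 7 / 10) : ∃ N₀ : ℕ, ∀ N : ℕ, N₀ ≤ N →
    δ * (N / 4) ≤ (((Icc 1 N).filter (fun m => 4 ∣ m ∧ Even (deriv m) ∧ Difference (deriv m) ∧
      Many K (deriv m))).card : ℝ) := by
  obtain ⟨N₀, h⟩ := Run7.h527.AD.density_four (fun m => Even (deriv m) ∧ Difference (deriv m) ∧ Many K (deriv m))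
    (fun ρ hρ => by
      refine almostAll_and (lower_deriv K ρ hρ) (lower_deriv K ρ hρ) 1 ?_
      rintro m hm h1 - h2 ⟨t, rfl⟩
      have hev : Even (deriv (4 * t)) := (Run7.h527.AD.deriv_four t (by omega)).2
      exact ⟨hev, h1 h2 hev⟩) δ hδ
  refine ⟨N₀, fun N hN => (h N hN).trans (Nat.cast_le.2 ?_)⟩
  exact Pool.Agent.Results.MP_967f73_nt.AliquotSums.card_mono' (fun m hm => hm)

open Classical in
/-- **The values of the arithmetic derivative and of similar functions are differences of two primes.** Let `D` be a function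
of moderate growth with Leibniz' rule for coprime arguments and `D p = u p + v`, `v ≠ 0`, for all large primes `p`, let `α`,
`β ≠ 0` be integers, `C`, `K` natural numbers and `ρ > 0`. (1) For almost all `m` with a prime factor `≥ m^(1/3 + ρ)` and
`n = α m + β D(m) ≥ m / (log m)^C` the integer `n`, if it is even, is a difference of two primes and satisfies `Formula K n`;
(2) with a prime factor `≥ m^(3/10 + ρ)` it is a difference of two primes and satisfies `Many K n`. (3) The arithmetic
derivative is an example. (4), (5) In this case the condition on the size is true for almost all `m`. (6) For a proportion of at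
least `7/10` of the multiples `m` of four the (even) derivative of `m` is a difference of two primes and satisfies `Many K`. -/
theorem result :
    (∀ (D : ℕ → ℤ) (u v α β : ℤ) (C K : ℕ) (ρ : ℝ), Derivation D u v → v ≠ 0 → β ≠ 0 → 0 < ρ →
      AlmostAll (fun m => LargePrime (1 / 3 + ρ) m → (m : ℝ) / Real.log m ^ C ≤ ((α * m + β * D m : ℤ) : ℝ) →
        Even (α * m + β * D m) → Difference (α * m + β * D m).toNat ∧ Formula K (α * m + β * D m).toNat)) ∧
    (∀ (D : ℕ → ℤ) (u v α β : ℤ) (C K : ℕ) (ρ : ℝ), Derivation D u v → v ≠ 0 → β ≠ 0 → 0 < ρ →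
      AlmostAll (fun m => LargePrime (3 / 10 + ρ) m → (m : ℝ) / Real.log m ^ C ≤ ((α * m + β * D m : ℤ) : ℝ) →
        Even (α * m + β * D m) → Difference (α * m + β * D m).toNat ∧ Many K (α * m + β * D m).toNat)) ∧
    (Derivation (fun m => (deriv m : ℤ)) 0 1 ∧ (∀ p : ℕ, p.Prime → deriv p = 1) ∧
      ∀ m n : ℕ, 1 ≤ m → 1 ≤ n → deriv (m * n) = m * deriv n + n * deriv m) ∧
    (∀ (K : ℕ) (ρ : ℝ), 0 < ρ →
      AlmostAll (fun m => LargePrime (1 / 3 + ρ) m → Even (deriv m) → Difference (deriv m) ∧ Formula K (deriv m))) ∧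
    (∀ (K : ℕ) (ρ : ℝ), 0 < ρ →
      AlmostAll (fun m => LargePrime (3 / 10 + ρ) m → Even (deriv m) → Difference (deriv m) ∧ Many K (deriv m))) ∧
    ∀ (K : ℕ) (δ : ℝ), δ < 7 / 10 → ∃ N₀ : ℕ, ∀ N : ℕ, N₀ ≤ N → δ * (N / 4) ≤
      (((Icc 1 N).filter (fun m => 4 ∣ m ∧ Even (deriv m) ∧ Difference (deriv m) ∧ Many K (deriv m))).card : ℝ) :=
  ⟨asymptotic, lower, ⟨derivation_deriv, Run7.h527.AD.deriv_prime, Run7.h527.AD.deriv_leibniz⟩, asymptotic_deriv,
    lower_deriv, density⟩

end Pool.Agent.Results.MP_70e905_nt.DerivativeDifferences
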